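import Mathlib

set_option autoImplicit false

/-!
# Trivial recolouring implies dismantlability for binary matroids

If any two homomorphisms `M → N` are joined by a path in `Col(M, N)`, for every binary matroid `M`,
then the nonempty binary matroid `N` dismantles to the loop or to the edge.

Idea of the proof. Dismantle `N` as long as possible, to a matroid without dismantling
retractions; its recolouring problem is trivial too. Let `N ⊗ N` have as elements the pairs of
elements of `N`, with the concatenated columns. If `N` has no dismantling retraction then no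
nonzero vector `c` satisfies `N + c = N`, and every homomorphism in the component of the first
projection `N ⊗ N → N` is the first projection followed by a bijection of `N`. The second
projection is not of this form unless `N` has only one element.
-/

namespace Pool.Agent.Results.MP_ea4033_co.TrivialDismantles

/-- A simple binary matroid, given by a matrix over `ZMod 2` with pairwise distinct columns (the
zero column is allowed): `E` is the ground set, `ι` the set of rows. -/
structure BinMatroid where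
  E : Type
  ι : Type
  [finE : Fintype E]
  [finι : Fintype ι]
  col : E → ι → ZMod 2
  inj : Function.Injective col

attribute [instance] BinMatroid.finE BinMatroid.finι

/-- Circuits: minimal nonempty sets of columns with sum zero. -/
def IsCircuit (M : BinMatroid) (Z : Finset M.E) : Prop :=
  Z.Nonempty ∧ ∑ e ∈ Z, M.col e = 0 ∧
    ∀ Y ⊆ Z, Y.Nonempty → ∑ e ∈ Y, M.col e = 0 → Y = Z

/-- Nonempty cocycles: nonempty supports of linear functionals (of vectors of the row space). -/
def IsCocycle (M : BinMatroid) (C : Set M.E) : Prop :=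
  C.Nonempty ∧ ∃ φ : (M.ι → ZMod 2) →ₗ[ZMod 2] ZMod 2, C = {e | φ (M.col e) = 1}

/-- Cocircuits: minimal nonempty cocycles. -/
def IsCocircuit (M : BinMatroid) (C : Set M.E) : Prop :=
  IsCocycle M C ∧ ∀ D ⊆ C, IsCocycle M D → D = C

/-- Homomorphisms of binary matroids. -/
def IsHom (M N : BinMatroid) (τ : M.E → N.E) : Prop :=
  ∀ Z : Finset M.E, IsCircuit M Z → ∑ e ∈ Z, N.col (τ e) = 0

/-- The colouring graph `Col(M, N)`: its vertices are the homomorphisms `M → N`; two distinct
homomorphisms are adjacent if there are a cocircuit `C` of `M` and a vector `c` such that they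
differ by `c` on `C` and agree outside `C`. -/
def Col (M N : BinMatroid) : SimpleGraph {τ : M.E → N.E // IsHom M N τ} where
  Adj τ τ' := τ ≠ τ' ∧ ∃ (C : Set M.E) (c : N.ι → ZMod 2), IsCocircuit M C ∧
    (∀ e ∈ C, N.col (τ'.1 e) = N.col (τ.1 e) + c) ∧ ∀ e ∉ C, τ'.1 e = τ.1 e
  symm := ⟨fun τ τ' h => by
    obtain ⟨h0, C, c, hC, h1, h2⟩ := h
    refine ⟨h0.symm, C, c, hC, fun e he => ?_, fun e he => (h2 e he).symm⟩
    rw [h1 e he, add_assoc]
    have : c + c = 0 := by
      funext i
      show c i + c i = 0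
      generalize c i = x
      revert x; decide
    rw [this, add_zero]⟩
  loopless := ⟨fun τ h => h.1 rfl⟩

/-- `Recol(N)` is trivial: any two homomorphisms `M → N` are joined by a path in `Col(M, N)`, for
every binary matroid `M`. -/
def TrivialRecol (N : BinMatroid) : Prop := ∀ M : BinMatroid, (Col M N).Preconnected

lemma isHom_id (N : BinMatroid) : IsHom N N id := fun _ hZ => hZ.2.1

/-- A dismantling retraction of `N`: an idempotent homomorphism `N → N` adjacent to the identity in
`Col(N, N)`. -/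
def IsDismantlingRetraction (N : BinMatroid) (r : {τ : N.E → N.E // IsHom N N τ}) : Prop :=
  (∀ x, r.1 (r.1 x) = r.1 x) ∧ (Col N N).Adj ⟨id, isHom_id N⟩ r

/-- The restriction of `N` to a set of elements. -/
noncomputable def BinMatroid.restrict (N : BinMatroid) (S : Set N.E) : BinMatroid :=
  letI : Fintype S := Fintype.ofFinite S
  { E := S
    ι := N.ι
    col := fun e => N.col e.1
    inj := fun _ _ h => Subtype.ext (N.inj h) }

/-- `N` dismantles to `N'`: a sequence of dismantling retractions, each one of the image of the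
previous one, leads from `N` to `N'`. -/
inductive Dismantles : BinMatroid → BinMatroid → Prop
  | refl (N : BinMatroid) : Dismantles N N
  | step (N : BinMatroid) (r : {τ : N.E → N.E // IsHom N N τ}) (N' : BinMatroid)
      (hr : IsDismantlingRetraction N r) (h : Dismantles (N.restrict (Set.range r.1)) N') :
      Dismantles N N'

/-- The loop: one element, with a zero column. -/
def IsLoopMatroid (N : BinMatroid) : Prop := ∃ e : N.E, (∀ f, f = e) ∧ N.col e = 0

/-- The edge: one element, with a nonzero column. -/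
def IsEdgeMatroid (N : BinMatroid) : Prop := ∃ e : N.E, (∀ f, f = e) ∧ N.col e ≠ 0

/-! ### Linear maps -/

lemma char2 {ι : Type} (c : ι → ZMod 2) : c + c = 0 := by
  funext i
  show c i + c i = 0
  generalize c i = x
  revert x; decide

lemma z2 (x : ZMod 2) : x = 0 ∨ x = 1 := by revert x; decide

lemma sum_cycle {M N : BinMatroid} {τ : M.E → N.E} (h : IsHom M N τ) :
    ∀ (n : ℕ) (Z : Finset M.E), Z.card = n → ∑ e ∈ Z, M.col e = 0 →
      ∑ e ∈ Z, N.col (τ e) = 0 := by
  classical
  intro n
  induction n using Nat.strong_induction_on with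
  | _ n ih =>
  intro Z hZ h0
  by_cases hne : Z.Nonempty
  · by_cases hmin : ∀ Y ⊆ Z, Y.Nonempty → ∑ e ∈ Y, M.col e = 0 → Y = Z
    · exact h Z ⟨hne, h0, hmin⟩
    · push Not at hmin
      obtain ⟨Y, hYZ, hY, hY0, hYne⟩ := hmin
      have hss : Y ⊂ Z := lt_of_le_of_ne hYZ hYne
      have h1 : ∑ e ∈ Z \ Y, M.col e = 0 := by
        have := Finset.sum_sdiff (f := fun e => M.col e) hYZ
        rw [h0, hY0, add_zero] at this
        exact this
      have h2 := ih _ (by rw [← hZ]; exact Finset.card_lt_card hss) Y rfl hY0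
      have h3 := ih _ (by
        rw [← hZ]
        exact Finset.card_lt_card (Finset.sdiff_ssubset hYZ hY)) (Z \ Y) rfl h1
      rw [← Finset.sum_sdiff hYZ, h2, h3, add_zero]
  · rw [Finset.not_nonempty_iff_eq_empty] at hne
    simp [hne]

/-- a homomorphism comes from a linear map -/
lemma exists_linear {M N : BinMatroid} {τ : M.E → N.E} (h : IsHom M N τ) :
    ∃ T : (M.ι → ZMod 2) →ₗ[ZMod 2] (N.ι → ZMod 2), ∀ e, T (M.col e) = N.col (τ e) := by
  classical
  let A : (M.E → ZMod 2) →ₗ[ZMod 2] (M.ι → ZMod 2) :=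
    Fintype.linearCombination (ZMod 2) M.col
  let B : (M.E → ZMod 2) →ₗ[ZMod 2] (N.ι → ZMod 2) :=
    Fintype.linearCombination (ZMod 2) (fun e => N.col (τ e))
  have hsum : ∀ (V : Type) [AddCommGroup V] [Module (ZMod 2) V] (f : M.E → V)
      (x : M.E → ZMod 2), ∑ e, x e • f e = ∑ e ∈ Finset.univ.filter (fun e => x e = 1), f e := by
    intro V _ _ f x
    rw [Finset.sum_filter]
    apply Finset.sum_congr rfl
    intro e _
    rcases z2 (x e) with h | h
    · rw [h, zero_smul, if_neg (by decide)]
    · rw [h, one_smul, if_pos rfl]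
  have hker : LinearMap.ker A ≤ LinearMap.ker B := by
    intro x hx
    rw [LinearMap.mem_ker] at hx ⊢
    simp only [A, B, Fintype.linearCombination_apply] at hx ⊢
    rw [hsum] at hx ⊢
    exact sum_cycle h _ _ rfl hx
  let T0 : LinearMap.range A →ₗ[ZMod 2] (N.ι → ZMod 2) :=
    ((LinearMap.ker A).liftQ B hker).comp A.quotKerEquivRange.symm.toLinearMap
  obtain ⟨T, hT⟩ := LinearMap.exists_extend T0
  refine ⟨T, fun e => ?_⟩
  have h1 : A (Pi.single e 1) = M.col e := by
    simp only [A]
    rw [Fintype.linearCombination_apply_single, one_smul]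
  have h2 : B (Pi.single e 1) = N.col (τ e) := by
    simp only [B]
    rw [Fintype.linearCombination_apply_single, one_smul]
  have h3 : T0 ⟨A (Pi.single e 1), ⟨_, rfl⟩⟩ = B (Pi.single e 1) := by
    simp only [T0, LinearMap.comp_apply, LinearEquiv.coe_coe]
    have : (A.quotKerEquivRange).symm ⟨A (Pi.single e 1), ⟨_, rfl⟩⟩ =
        (LinearMap.ker A).mkQ (Pi.single e 1) := by
      rw [LinearEquiv.symm_apply_eq]
      rfl
    rw [this]
    rfl
  rw [← h2, ← h3, ← hT, ← h1]
  rfl

lemma isHom_of_linear {M N : BinMatroid} {τ : M.E → N.E}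
    (T : (M.ι → ZMod 2) →ₗ[ZMod 2] (N.ι → ZMod 2)) (h : ∀ e, T (M.col e) = N.col (τ e)) :
    IsHom M N τ := by
  intro Z hZ
  rw [← Finset.sum_congr rfl (fun e _ => h e), ← map_sum, hZ.2.1, map_zero]

lemma isHom_comp {L M N : BinMatroid} {τ : L.E → M.E} {σ : M.E → N.E} (hσ : IsHom M N σ)
    (hτ : IsHom L M τ) : IsHom L N (σ ∘ τ) := by
  obtain ⟨T, hT⟩ := exists_linear hτ
  obtain ⟨S, hS⟩ := exists_linear hσ
  exact isHom_of_linear (S.comp T) fun e => by rw [LinearMap.comp_apply, hT, hS]; rfl

/-! ### Retracts -/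

/-- trivial recolouring passes to the images of retractions -/
lemma trivial_restrict {N : BinMatroid} (h : TrivialRecol N) (r : {τ : N.E → N.E // IsHom N N τ})
    (hr : ∀ x, r.1 (r.1 x) = r.1 x) : TrivialRecol (N.restrict (Set.range r.1)) := by
  classical
  intro M τ τ'
  let N' := N.restrict (Set.range r.1)
  obtain ⟨T, hT⟩ := exists_linear r.2
  -- the inclusion and the retraction
  have hincl : IsHom N' N (fun x => x.1) := isHom_of_linear LinearMap.id fun e => rfl
  have hret : IsHom N N' (fun x => ⟨r.1 x, x, rfl⟩) := isHom_of_linear T fun e => hT e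
  let up : {τ : M.E → N'.E // IsHom M N' τ} → {τ : M.E → N.E // IsHom M N τ} :=
    fun σ => ⟨(fun x => x.1) ∘ σ.1, isHom_comp hincl σ.2⟩
  let down : {τ : M.E → N.E // IsHom M N τ} → {τ : M.E → N'.E // IsHom M N' τ} :=
    fun σ => ⟨(fun x => ⟨r.1 x, x, rfl⟩) ∘ σ.1, isHom_comp hret σ.2⟩
  have hdu : ∀ σ, down (up σ) = σ := by
    intro σ
    apply Subtype.ext
    funext e
    apply Subtype.ext
    show r.1 (σ.1 e).1 = (σ.1 e).1
    obtain ⟨x, hx⟩ := (σ.1 e).2
    rw [← hx]
    exact hr x
  have hadj : ∀ σ σ', (Col M N).Adj σ σ' → (Col M N').Reachable (down σ) (down σ') := by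
    rintro σ σ' ⟨_, C, c, hC, h1, h2⟩
    by_cases heq : down σ = down σ'
    · rw [heq]
    · apply SimpleGraph.Adj.reachable
      refine ⟨heq, C, T c, hC, fun e he => ?_, fun e he => ?_⟩
      · show N.col (r.1 (σ'.1 e)) = N.col (r.1 (σ.1 e)) + T c
        rw [← hT, h1 e he, map_add, hT]
      · show (⟨r.1 (σ'.1 e), _⟩ : Set.range r.1) = ⟨r.1 (σ.1 e), _⟩
        simp only [h2 e he]
  have hreach : ∀ σ σ', (Col M N).Walk σ σ' → (Col M N').Reachable (down σ) (down σ') := by
    intro σ σ' W
    induction W with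
    | nil => exact SimpleGraph.Reachable.refl _
    | cons hh _ ih => exact (hadj _ _ hh).trans ih
  obtain ⟨W⟩ := h M (up τ) (up τ')
  have := hreach _ _ W
  rwa [hdu, hdu] at this

/-! ### Matroids without dismantling retractions -/

/-- no dismantling retraction -/
def Stiff (N : BinMatroid) : Prop := ∀ r, ¬ IsDismantlingRetraction N r

lemma stiff_cocircuit {N : BinMatroid} (hN : Stiff N)
    (φ : (N.ι → ZMod 2) →ₗ[ZMod 2] ZMod 2) (hC : IsCocircuit N {e | φ (N.col e) = 1})
    (c : N.ι → ZMod 2) (hc : ∀ e, φ (N.col e) = 1 → ∃ f, N.col f = N.col e + c) :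
    φ c = 0 := by
  classical
  by_contra hφ
  have hφc : φ c = 1 := (z2 _).resolve_left hφ
  have hex : ∀ e, ∃ f, N.col f = N.col e + φ (N.col e) • c := by
    intro e
    rcases z2 (φ (N.col e)) with h | h
    · exact ⟨e, by rw [h, zero_smul, add_zero]⟩
    · obtain ⟨f, hf⟩ := hc e h
      exact ⟨f, by rw [h, one_smul, hf]⟩
  choose r hr using hex
  have hhom : IsHom N N r := isHom_of_linear
    (LinearMap.id + φ.smulRight c) fun e => by
      rw [hr]; simp
  have hφr : ∀ e, φ (N.col (r e)) = 0 := by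
    intro e
    rw [hr, map_add, map_smul, hφc]
    rcases z2 (φ (N.col e)) with h | h
    · rw [h]; decide
    · rw [h]; decide
  apply hN ⟨r, hhom⟩
  refine ⟨fun x => ?_, ?_, {e | φ (N.col e) = 1}, c, hC, fun e he => ?_, fun e he => ?_⟩
  · apply N.inj
    show N.col (r (r x)) = N.col (r x)
    rw [hr (r x), hφr, zero_smul, add_zero]
  · intro heq
    obtain ⟨e, he⟩ := hC.1.1
    have h1 : e = r e := congrFun (congrArg Subtype.val heq) e
    have h2 := hφr e
    rw [← h1] at h2
    have he' : φ (N.col e) = 1 := he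
    rw [h2] at he'
    exact absurd he' (by decide)
  · have he' : φ (N.col e) = 1 := he
    show N.col (r e) = N.col e + c
    rw [hr, he', one_smul]
  · have he' : φ (N.col e) = 0 := (z2 _).resolve_right he
    apply N.inj
    show N.col (r e) = N.col e
    rw [hr, he', zero_smul, add_zero]

/-- a nonempty matroid without dismantling retractions is not invariant under a translation -/
lemma stiff_translation {N : BinMatroid} (hN : Stiff N) [hne : Nonempty N.E]
    (c : N.ι → ZMod 2) (hc : ∀ e, ∃ f, N.col f = N.col e + c) : c = 0 := by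
  classical
  by_contra h0
  obtain ⟨φ, hφ⟩ : ∃ φ : (N.ι → ZMod 2) →ₗ[ZMod 2] ZMod 2, φ c = 1 := by
    obtain ⟨i, hi⟩ := Function.ne_iff.1 h0
    exact ⟨LinearMap.proj i, (z2 (c i)).resolve_left hi⟩
  have hC : IsCocircuit N {e | φ (N.col e) = 1} := by
    refine ⟨⟨?_, φ, rfl⟩, ?_⟩
    · obtain ⟨e⟩ := hne
      rcases z2 (φ (N.col e)) with h | h
      · obtain ⟨f, hf⟩ := hc e
        refine ⟨f, ?_⟩
        show φ (N.col f) = 1
        rw [hf, map_add, h, hφ, zero_add]
      · exact ⟨e, h⟩
    · rintro D hD ⟨⟨d, hd⟩, χ, rfl⟩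
      have hout : ∀ y, φ (N.col y) = 0 → χ (N.col y) = 0 := by
        intro y hy
        by_contra hcon
        have h1 : φ (N.col y) = 1 := hD ((z2 _).resolve_left hcon)
        rw [hy] at h1
        exact absurd h1 (by decide)
      have hin : ∀ y, φ (N.col y) = 1 → χ (N.col y) = χ c := by
        intro y hy
        obtain ⟨f, hf⟩ := hc y
        have h1 : φ (N.col f) = 0 := by
          rw [hf, map_add, hy, hφ]; decide
        have h2 := hout f h1
        rw [hf, map_add] at h2
        rcases z2 (χ (N.col y)) with h3 | h3 <;> rcases z2 (χ c) with h4 | h4 <;>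
          rw [h3, h4] at h2 <;> rw [h3, h4] <;> revert h2 <;> decide
      have hd' : φ (N.col d) = 1 := hD hd
      have hχc : χ c = 1 := by
        rw [← hin d hd']
        exact hd
      apply Set.Subset.antisymm hD
      intro y hy
      show χ (N.col y) = 1
      rw [hin y hy, hχc]
  have := stiff_cocircuit hN φ hC c fun e _ => hc e
  rw [hφ] at this
  exact absurd this (by decide)

/-! ### The product -/

/-- the pairs of elements, with concatenated columns -/
noncomputable def prod (N : BinMatroid) : BinMatroid where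
  E := N.E × N.E
  ι := N.ι ⊕ N.ι
  col p := Sum.elim (N.col p.1) (N.col p.2)
  inj := by
    rintro ⟨a, b⟩ ⟨a', b'⟩ h
    have h1 : N.col a = N.col a' := by
      funext i
      exact congrFun h (Sum.inl i)
    have h2 : N.col b = N.col b' := by
      funext i
      exact congrFun h (Sum.inr i)
    rw [N.inj h1, N.inj h2]

/-- the first projection on vectors -/
def inlMap (ι : Type) : (ι → ZMod 2) →ₗ[ZMod 2] (ι ⊕ ι → ZMod 2) where
  toFun x := Sum.elim x 0
  map_add' x y := by funext i; rcases i with i | i <;> simp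
  map_smul' a x := by funext i; rcases i with i | i <;> simp

def inrMap (ι : Type) : (ι → ZMod 2) →ₗ[ZMod 2] (ι ⊕ ι → ZMod 2) where
  toFun x := Sum.elim 0 x
  map_add' x y := by funext i; rcases i with i | i <;> simp
  map_smul' a x := by funext i; rcases i with i | i <;> simp

def outl (ι : Type) : (ι ⊕ ι → ZMod 2) →ₗ[ZMod 2] (ι → ZMod 2) where
  toFun x i := x (Sum.inl i)
  map_add' _ _ := rfl
  map_smul' _ _ := rfl

def outr (ι : Type) : (ι ⊕ ι → ZMod 2) →ₗ[ZMod 2] (ι → ZMod 2) where
  toFun x i := x (Sum.inr i)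
  map_add' _ _ := rfl
  map_smul' _ _ := rfl

lemma split {ι : Type} (Φ : (ι ⊕ ι → ZMod 2) →ₗ[ZMod 2] ZMod 2) (x y : ι → ZMod 2) :
    Φ (Sum.elim x y) = Φ.comp (inlMap ι) x + Φ.comp (inrMap ι) y := by
  have : (Sum.elim x y : ι ⊕ ι → ZMod 2) = inlMap ι x + inrMap ι y := by
    funext i
    rcases i with i | i <;> simp [inlMap, inrMap]
  rw [this, map_add]
  rfl

/-- the inverse of a bijective homomorphism is a homomorphism -/
lemma isHom_symm {N : BinMatroid} (σ : Equiv.Perm N.E) (h : IsHom N N σ) :
    IsHom N N σ.symm := by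
  have hpow : ∀ k : ℕ, IsHom N N ((σ ^ k : Equiv.Perm N.E) : N.E → N.E) := by
    intro k
    induction k with
    | zero => exact isHom_id N
    | succ k ih =>
      have h1 := isHom_comp ih h
      rw [pow_succ, Equiv.Perm.coe_mul]
      exact h1
  classical
  have h1 : σ.symm = σ ^ (orderOf σ - 1) := by
    have h2 : σ ^ (orderOf σ - 1) * σ = 1 := by
      rw [← pow_succ, Nat.sub_add_cancel (orderOf_pos σ), pow_orderOf_eq_one]
    have h3 : σ⁻¹ = σ ^ (orderOf σ - 1) := inv_eq_of_mul_eq_one_left h2
    exact h3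
  rw [h1]
  exact hpow _

/-- one step from the first projection followed by a bijection -/
lemma step_proj {N : BinMatroid} (hN : Stiff N) [hne : Nonempty N.E] (σ : Equiv.Perm N.E)
    (hσ : IsHom N N σ) (τ τ' : {τ : (prod N).E → N.E // IsHom (prod N) N τ})
    (hτ : ∀ p, τ.1 p = σ p.1) (hadj : (Col (prod N) N).Adj τ τ') :
    ∃ σ' : Equiv.Perm N.E, IsHom N N σ' ∧ ∀ p, τ'.1 p = σ' p.1 := by
  classical
  obtain ⟨hneq, C, c, hC, h1, h2⟩ := hadj
  obtain ⟨hCne, Φ, hΦ⟩ := hC.1
  set φ := Φ.comp (inlMap N.ι) with hφ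
  set ψ := Φ.comp (inrMap N.ι) with hψ
  have hΦ' : ∀ e f, Φ ((prod N).col (e, f)) = φ (N.col e) + ψ (N.col f) := fun e f => split Φ _ _
  have hmem : ∀ e f, ((e, f) : (prod N).E) ∈ C ↔ φ (N.col e) + ψ (N.col f) = 1 := by
    intro e f
    rw [hΦ, ← hΦ' e f]
    rfl
  have hτ' : ∀ e f : N.E, N.col (τ.1 (e, f)) = N.col (σ e) := fun e f => congrArg N.col (hτ (e, f))
  -- `c` is not zero
  have hc0 : c ≠ 0 := by
    rintro rfl
    apply hneq
    apply Subtype.ext
    funext p
    by_cases hp : p ∈ C
    · apply N.inj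
      rw [h1 p hp, add_zero]
    · exact (h2 p hp).symm
  by_cases hconst : ∃ s : ZMod 2, ∀ f, ψ (N.col f) = s
  · -- the cocircuit depends on the first coordinate only
    obtain ⟨s, hs⟩ := hconst
    obtain ⟨f0⟩ := id hne
    obtain ⟨φ0, hφ0⟩ : ∃ φ0 : (N.ι → ZMod 2) →ₗ[ZMod 2] ZMod 2,
        ∀ e f, ((e, f) : (prod N).E) ∈ C ↔ φ0 (N.col e) = 1 := by
      refine ⟨φ + ψ, fun e f => ?_⟩
      rw [hmem, hs f, LinearMap.add_apply, hs e]
    have hC0 : IsCocircuit N {e | φ0 (N.col e) = 1} := by
      refine ⟨⟨?_, φ0, rfl⟩, ?_⟩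
      · obtain ⟨⟨e, f⟩, hef⟩ := hCne
        exact ⟨e, (hφ0 e f).1 hef⟩
      · rintro D hD ⟨⟨d, hd⟩, χ, rfl⟩
        have h3 := hC.2 {p | (χ.comp (outl N.ι)) ((prod N).col p) = 1} (by
          rintro ⟨e, f⟩ hef
          have : χ (N.col e) = 1 := hef
          exact (hφ0 e f).2 (hD this)) ⟨⟨(d, f0), hd⟩, _, rfl⟩
        ext e
        have h4 : ((e, f0) : (prod N).E) ∈
            {p | (χ.comp (outl N.ι)) ((prod N).col p) = 1} ↔ ((e, f0) : (prod N).E) ∈ C := by
          rw [h3]
        rw [hφ0] at h4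
        exact h4
    obtain ⟨S, hS⟩ := exists_linear hσ
    obtain ⟨S', hS'⟩ := exists_linear (isHom_symm σ hσ)
    -- the new map
    let g : N.E → N.E := fun e => τ'.1 (e, f0)
    have hg : ∀ e, N.col (g e) = N.col (σ e) + φ0 (N.col e) • c := by
      intro e
      by_cases he : ((e, f0) : (prod N).E) ∈ C
      · rw [(hφ0 e f0).1 he, one_smul]
        exact (h1 _ he).trans (congrArg (· + c) (hτ' e f0))
      · have : φ0 (N.col e) = 0 := (z2 _).resolve_right fun h => he ((hφ0 e f0).2 h)
        rw [this, zero_smul, add_zero]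
        exact (congrArg N.col (h2 _ he)).trans (hτ' e f0)
    have hg' : ∀ p, τ'.1 p = g p.1 := by
      rintro ⟨e, f⟩
      apply N.inj
      rw [hg]
      by_cases he : ((e, f) : (prod N).E) ∈ C
      · rw [(hφ0 e f).1 he, one_smul]
        exact (h1 _ he).trans (congrArg (· + c) (hτ' e f))
      · have : φ0 (N.col e) = 0 := (z2 _).resolve_right fun h => he ((hφ0 e f).2 h)
        rw [this, zero_smul, add_zero]
        exact (congrArg N.col (h2 _ he)).trans (hτ' e f)
    have hghom : IsHom N N g := isHom_of_linear (S + φ0.smulRight c) fun e => by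
      rw [hg, ← hS]; simp
    -- the functional transported by `σ`
    let φ1 := φ0.comp S'
    have hφ1 : ∀ x, φ1 (N.col x) = φ0 (N.col (σ.symm x)) := by
      intro x
      show φ0 (S' (N.col x)) = _
      rw [hS']
    have hC1 : IsCocircuit N {x | φ1 (N.col x) = 1} := by
      refine ⟨⟨?_, φ1, rfl⟩, ?_⟩
      · obtain ⟨e, he⟩ := hC0.1.1
        refine ⟨σ e, ?_⟩
        show φ1 (N.col (σ e)) = 1
        rw [hφ1, Equiv.symm_apply_apply]
        exact he
      · rintro D hD ⟨⟨d, hd⟩, χ, rfl⟩
        have hχ : ∀ e, (χ.comp S) (N.col e) = χ (N.col (σ e)) := by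
          intro e
          rw [LinearMap.comp_apply, hS]
        have h3 := hC0.2 {e | (χ.comp S) (N.col e) = 1} (by
          intro e he
          have h4 : χ (N.col (σ e)) = 1 := by rw [← hχ]; exact he
          have h5 : φ1 (N.col (σ e)) = 1 := hD h4
          rw [hφ1, Equiv.symm_apply_apply] at h5
          exact h5) ⟨⟨σ.symm d, by
            show (χ.comp S) (N.col (σ.symm d)) = 1
            rw [hχ, Equiv.apply_symm_apply]
            exact hd⟩, _, rfl⟩
        ext x
        have h4 : σ.symm x ∈ {e | (χ.comp S) (N.col e) = 1} ↔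
            σ.symm x ∈ {e | φ0 (N.col e) = 1} := by rw [h3]
        have h5 : (χ.comp S) (N.col (σ.symm x)) = χ (N.col x) := by
          rw [hχ, Equiv.apply_symm_apply]
        show χ (N.col x) = 1 ↔ φ1 (N.col x) = 1
        rw [hφ1, ← h5]
        exact h4
    have hφ1c : φ1 c = 0 := by
      apply stiff_cocircuit hN φ1 hC1 c
      intro x hx
      refine ⟨g (σ.symm x), ?_⟩
      rw [hg, Equiv.apply_symm_apply, ← hφ1, hx, one_smul]
    have hinj : Function.Injective g := by
      intro x y hxy
      have h3 : N.col (σ x) + φ0 (N.col x) • c = N.col (σ y) + φ0 (N.col y) • c := by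
        rw [← hg, ← hg, hxy]
      have h4 : φ0 (N.col x) = φ0 (N.col y) := by
        have := congrArg φ1 h3
        rw [map_add, map_add, map_smul, map_smul, hφ1c, smul_zero, smul_zero, add_zero, add_zero,
          hφ1, hφ1, Equiv.symm_apply_apply, Equiv.symm_apply_apply] at this
        exact this
      rw [h4] at h3
      exact σ.injective (N.inj (add_right_cancel h3))
    refine ⟨Equiv.ofBijective g (Finite.injective_iff_bijective.1 hinj), hghom, hg'⟩
  · -- translation invariance
    exfalso
    push Not at hconst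
    obtain ⟨f1, hf1⟩ := hconst 0
    obtain ⟨f2, hf2⟩ := hconst 1
    have hf1' : ψ (N.col f1) = 1 := (z2 _).resolve_left hf1
    have hf2' : ψ (N.col f2) = 0 := (z2 _).resolve_right hf2
    apply hc0
    apply stiff_translation hN c
    intro x
    have h3 : ∃ f, ((σ.symm x, f) : (prod N).E) ∈ C := by
      rcases z2 (φ (N.col (σ.symm x))) with h | h
      · exact ⟨f1, by rw [hmem, h, hf1']; decide⟩
      · exact ⟨f2, by rw [hmem, h, hf2']; decide⟩
    obtain ⟨f, hf⟩ := h3
    refine ⟨τ'.1 (σ.symm x, f), ?_⟩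
    refine (h1 _ hf).trans ?_
    rw [hτ', Equiv.apply_symm_apply]

lemma stiff_one {N : BinMatroid} (hN : Stiff N) [hne : Nonempty N.E] (h : TrivialRecol N) :
    ∃ e : N.E, ∀ f, f = e := by
  classical
  have h1 : IsHom (prod N) N (fun p => p.1) := isHom_of_linear (outl N.ι) fun _ => rfl
  have h2 : IsHom (prod N) N (fun p => p.2) := isHom_of_linear (outr N.ι) fun _ => rfl
  obtain ⟨W⟩ := h (prod N) ⟨_, h1⟩ ⟨_, h2⟩
  have key : ∀ (τ τ' : {τ : (prod N).E → N.E // IsHom (prod N) N τ}),
      (Col (prod N) N).Walk τ τ' →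
      (∃ σ : Equiv.Perm N.E, IsHom N N σ ∧ ∀ p, τ.1 p = σ p.1) →
      (∃ σ : Equiv.Perm N.E, IsHom N N σ ∧ ∀ p, τ'.1 p = σ p.1) := by
    intro τ τ' W
    induction W with
    | nil => exact id
    | cons hh _ ih =>
      rintro ⟨σ, hσ, hτ⟩
      exact ih (step_proj hN σ hσ _ _ hτ hh)
  obtain ⟨σ, _, hσ⟩ := key _ _ W ⟨1, isHom_id N, fun _ => rfl⟩
  obtain ⟨e⟩ := hne
  refine ⟨σ e, fun f => ?_⟩
  exact hσ (e, f)

/-- **Trivial recolouring implies dismantlability.** Let `N` be a nonempty binary matroid such that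
for every binary matroid `M` any two homomorphisms `M → N` are joined by a path in `Col(M, N)`.
Then `N` dismantles to the loop or to the edge. -/
theorem result (N : BinMatroid) (hne : Nonempty N.E) (h : TrivialRecol N) :
    ∃ N' : BinMatroid, Dismantles N N' ∧ (IsLoopMatroid N' ∨ IsEdgeMatroid N') := by
  classical
  obtain ⟨n, hn⟩ : ∃ n, n = Fintype.card N.E := ⟨_, rfl⟩
  induction n using Nat.strong_induction_on generalizing N with
  | _ n ih =>
  by_cases hst : Stiff N
  · obtain ⟨e, he⟩ := stiff_one hst h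
    refine ⟨N, Dismantles.refl N, ?_⟩
    by_cases h0 : N.col e = 0
    · exact Or.inl ⟨e, he, h0⟩
    · exact Or.inr ⟨e, he, h0⟩
  · unfold Stiff at hst
    push Not at hst
    obtain ⟨r, hr⟩ := hst
    have hlt : Fintype.card (N.restrict (Set.range r.1)).E < n := by
      rw [hn, ← Nat.card_eq_fintype_card, ← Nat.card_eq_fintype_card]
      have hex : ∃ x, x ∉ Set.range r.1 := by
        by_contra hcon
        push Not at hcon
        apply hr.2.1
        apply Subtype.ext
        funext x
        obtain ⟨y, hy⟩ := hcon x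
        show x = r.1 x
        rw [← hy]
        exact (hr.1 y).symm
      obtain ⟨x, hx⟩ := hex
      exact Finite.card_subtype_lt hx
    have hne' : Nonempty (N.restrict (Set.range r.1)).E := by
      obtain ⟨e⟩ := hne
      exact ⟨⟨r.1 e, e, rfl⟩⟩
    obtain ⟨N', hd, hN'⟩ := ih _ hlt (N.restrict (Set.range r.1)) hne'
      (trivial_restrict h r hr.1) rfl
    exact ⟨N', Dismantles.step N r N' hr hd, hN'⟩

end Pool.Agent.Results.MP_ea4033_co.TrivialDismantles
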